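import Pool.Agent.L0h20.SY.Stm

/-!
# Supports: transpositions, intersections, images
-/

set_option autoImplicit false

namespace Pool.Agent.L0h32.SY

open Pool.Agent.L0h36.BG Pool.Agent.L0h20.SY Equiv

theorem t_SWAP : S_SWAP := by
  intro Ω X _ _ _ W A x h
  have key : ∀ (n : ℕ) (σ : Equiv.Perm Ω), σ.support.card ≤ n → PermOf W σ →
      (∀ a ∈ A, σ a = a) → σ • x = x := by
    intro n
    induction n with
    | zero =>
      intro σ hn _ _
      have h1 : σ = 1 := by
        rw [← Equiv.Perm.support_eq_empty_iff, ← Finset.card_eq_zero]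
        omega
      rw [h1, one_smul]
    | succ n ih =>
      intro σ hn hW hA
      by_cases h1 : σ = 1
      · rw [h1, one_smul]
      · obtain ⟨u, hu⟩ : ∃ u, σ u ≠ u := by
          by_contra hcon
          push Not at hcon
          exact h1 (Equiv.ext hcon)
        have huW : u ∈ W := by
          by_contra hcon
          exact hu (hW u hcon)
        have huA : u ∉ A := fun hcon => hu (hA u hcon)
        have hvW : σ u ∈ W := by
          by_contra hcon
          exact hu (σ.injective (hW _ hcon))
        have hvA : σ u ∉ A := fun hcon => hu (σ.injective (hA _ hcon))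
        have h2 : (swap u (σ u) * σ) • x = x := by
          apply ih
          · have := Equiv.Perm.card_support_swap_mul hu
            omega
          · intro y hy
            rw [Equiv.Perm.mul_apply, hW y hy]
            apply swap_apply_of_ne_of_ne
            · rintro rfl
              exact hy huW
            · rintro rfl
              exact hy hvW
          · intro a ha
            rw [Equiv.Perm.mul_apply, hA a ha]
            apply swap_apply_of_ne_of_ne
            · rintro rfl
              exact huA ha
            · rintro rfl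
              exact hvA ha
        have h3 : σ = swap u (σ u) * (swap u (σ u) * σ) := by
          rw [← mul_assoc, swap_mul_self, one_mul]
        rw [h3, mul_smul, h2]
        exact h u huW _ hvW huA hvA
  exact fun σ hW hA => key _ σ le_rfl hW hA

/-- a transposition of points which are not in the support -/
theorem swap_of_sup {Ω X : Type} [Fintype Ω] [DecidableEq Ω] [MulAction (Equiv.Perm Ω) X]
    {W A : Finset Ω} {x : X} (h : Sup W A x) {u v : Ω} (huW : u ∈ W) (hvW : v ∈ W) (hu : u ∉ A)
    (hv : v ∉ A) : swap u v • x = x := by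
  apply h
  · intro y hy
    apply swap_apply_of_ne_of_ne
    · rintro rfl
      exact hy huW
    · rintro rfl
      exact hy hvW
  · intro a ha
    apply swap_apply_of_ne_of_ne
    · rintro rfl
      exact hu ha
    · rintro rfl
      exact hv ha

theorem t_INT : S_INT := by
  intro Ω X _ _ _ W A B x hA hB hw
  obtain ⟨w, hwW, hwA, hwB⟩ := hw
  have key : ∀ u ∈ W, ∀ v ∈ W, u ∉ A → v ∉ B → swap u v • x = x := by
    intro u huW v hvW hu hv
    by_cases h1 : u = w
    · exact swap_of_sup hB huW hvW (h1 ▸ hwB) hv
    by_cases h2 : v = w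
    · exact swap_of_sup hA huW hvW hu (h2 ▸ hwA)
    by_cases h3 : v = u
    · rw [h3, swap_self]
      exact one_smul _ x
    have h4 := Equiv.swap_mul_swap_mul_swap (x := v) (y := w) (z := u) h2 h3
    rw [← h4, mul_smul, mul_smul, swap_of_sup hA hwW huW hwA hu, swap_of_sup hB hvW hwW hv hwB,
      swap_of_sup hA hwW huW hwA hu]
  apply t_SWAP
  intro u huW v hvW hu hv
  rw [Finset.mem_inter, not_and_or] at hu hv
  rcases hu with hu | hu <;> rcases hv with hv | hv
  · exact swap_of_sup hA huW hvW hu hv
  · exact key u huW v hvW hu hv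
  · rw [swap_comm]
    exact key v hvW u huW hv hu
  · exact swap_of_sup hB huW hvW hu hv

theorem t_MAP : S_MAP := by
  intro Ω X _ _ _ W A x σ hσ hA τ hτ hτA
  have h1 : (σ⁻¹ * τ * σ) • x = x := by
    apply hA
    · intro y hy
      rw [Equiv.Perm.mul_apply, Equiv.Perm.mul_apply, hσ y hy, hτ y hy, Equiv.Perm.inv_eq_iff_eq,
        hσ y hy]
    · intro a ha
      rw [Equiv.Perm.mul_apply, Equiv.Perm.mul_apply,
        hτA (σ a) (Finset.mem_map.2 ⟨a, ha, rfl⟩), Equiv.Perm.inv_eq_iff_eq]
  have h2 : σ • (σ⁻¹ * τ * σ) • x = σ • x := by rw [h1]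
  rw [← mul_smul, ← mul_assoc, ← mul_assoc, mul_inv_cancel, one_mul, mul_smul] at h2
  exact h2

end Pool.Agent.L0h32.SY
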