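import Pool.Agent.L0h20.SY.Stm

/-!
# Points are moved out of a set
-/

set_option autoImplicit false

namespace Pool.Agent.L0h32.SY

open Pool.Agent.L0h36.BG Pool.Agent.L0h20.SY Equiv

/-- a permutation which maps one set into a disjoint one -/
theorem exists_exchange {Ω : Type} [DecidableEq Ω] (S : Finset Ω) : ∀ T : Finset Ω,
    Disjoint S T → S.card = T.card →
    ∃ σ : Equiv.Perm Ω, (∀ s ∈ S, σ s ∈ T) ∧ ∀ x, x ∉ S → x ∉ T → σ x = x := by
  induction S using Finset.induction_on with
  | empty =>
    intro T _ _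
    exact ⟨1, fun s hs => absurd hs (Finset.notMem_empty s), fun x _ _ => rfl⟩
  | insert s S hs ih =>
    intro T hd hc
    rw [Finset.card_insert_of_notMem hs] at hc
    rw [Finset.disjoint_insert_left] at hd
    obtain ⟨t, ht⟩ : T.Nonempty := by
      rw [← Finset.card_pos]
      omega
    have hsT : s ∉ T := hd.1
    obtain ⟨σ, h1, h2⟩ := ih (T.erase t)
      (Finset.disjoint_of_subset_right (Finset.erase_subset _ _) hd.2) (by
        rw [Finset.card_erase_of_mem ht]
        omega)
    have hst : s ≠ t := by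
      rintro rfl
      exact hsT ht
    refine ⟨swap s t * σ, ?_, ?_⟩
    · intro x hx
      rw [Equiv.Perm.mul_apply]
      rcases Finset.mem_insert.1 hx with rfl | hx
      · rw [h2 x hs fun h => hsT (Finset.mem_of_mem_erase h), swap_apply_left]
        exact ht
      · have h3 := h1 x hx
        rw [swap_apply_of_ne_of_ne]
        · exact Finset.mem_of_mem_erase h3
        · rintro h4
          exact hsT (h4 ▸ Finset.mem_of_mem_erase h3)
        · exact Finset.ne_of_mem_erase h3
    · intro x hx hx'
      rw [Finset.mem_insert, not_or] at hx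
      rw [Equiv.Perm.mul_apply, h2 x hx.2 fun h => hx' (Finset.mem_of_mem_erase h)]
      apply swap_apply_of_ne_of_ne hx.1
      rintro rfl
      exact hx' ht

theorem t_MOV : S_MOV := by
  intro Ω _ _ W A B R hA hB hR hAR hcard
  have h1 : (B ∩ R).card ≤ (W \ (A ∪ (B ∪ R))).card := by
    have h2 := Finset.card_sdiff_add_card_eq_card
      (Finset.union_subset hA (Finset.union_subset hB hR))
    have h3 := Finset.card_union_le A (B ∪ R)
    have h4 := Finset.card_union_add_card_inter B R
    omega
  obtain ⟨T, hT, hTc⟩ := Finset.exists_subset_card_eq h1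
  have hTW : T ⊆ W := hT.trans Finset.sdiff_subset
  have hTn : ∀ x ∈ T, x ∉ A ∧ x ∉ B ∧ x ∉ R := by
    intro x hx
    have h2 := (Finset.mem_sdiff.1 (hT hx)).2
    rw [Finset.mem_union, Finset.mem_union] at h2
    tauto
  obtain ⟨σ, h5, h6⟩ := exists_exchange (B ∩ R) T (by
    rw [Finset.disjoint_left]
    intro x hx hx'
    exact (hTn x hx').2.1 (Finset.mem_inter.1 hx).1) hTc.symm
  refine ⟨σ, ?_, ?_, ?_⟩
  · intro x hx
    apply h6
    · intro h
      exact hx (hB (Finset.mem_inter.1 h).1)
    · intro h
      exact hx (hTW h)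
  · intro a ha
    apply h6
    · intro h
      exact (Finset.disjoint_left.1 hAR ha) (Finset.mem_inter.1 h).2
    · intro h
      exact (hTn a h).1 ha
  · intro b hb
    by_cases hbR : b ∈ R
    · exact (hTn _ (h5 b (Finset.mem_inter.2 ⟨hb, hbR⟩))).2.2
    · rw [h6 b (fun h => hbR (Finset.mem_inter.1 h).2) fun h => (hTn b h).2.1 hb]
      exact hbR

end Pool.Agent.L0h32.SY
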